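import Pool.Agent.H75R3.ExpExample
import Pool.Agent.H75R3.KreissUp

/-!
The optimal exponent of the dimension in a uniform power bound for strongly Kreiss bounded
operators on finite-dimensional complex Banach spaces is exactly one.
-/

set_option autoImplicit false

namespace Pool.Agent.Results.MP_389529_an.OptimalExponent

open H75R3 Filter Topology

/-- `T` is strongly Kreiss bounded with constant `M`: its spectrum lies in the closed unit disc and
all powers of the resolvent obey the Hille-Yosida type bound outside it. -/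
def StronglyKreissBounded {X : Type} [NormedAddCommGroup X] [NormedSpace ℂ X]
    (T : X →L[ℂ] X) (M : ℝ) : Prop :=
  (∀ z ∈ spectrum ℂ T, ‖z‖ ≤ 1) ∧
    ∀ k : ℕ, 1 ≤ k → ∀ z : ℂ, 1 < ‖z‖ → ‖(resolvent T z) ^ k‖ ≤ M / (‖z‖ - 1) ^ k

/-- `θ ≥ 0` is admissible: for every `M ≥ 1` there is a constant `C`, depending only on `M`, such
that every strongly Kreiss bounded operator with constant at most `M` on a complex normed space of
dimension `d` has all its powers bounded by `C * d ^ θ`. -/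
def Admissible (θ : ℝ) : Prop :=
  0 ≤ θ ∧ ∀ M : ℝ, 1 ≤ M → ∃ C : ℝ, ∀ d : ℕ, 1 ≤ d →
    ∀ (X : Type) [NormedAddCommGroup X] [NormedSpace ℂ X] [FiniteDimensional ℂ X],
      Module.finrank ℂ X = d → ∀ T : X →L[ℂ] X, StronglyKreissBounded T M →
        ∀ n : ℕ, 1 ≤ n → ‖T ^ n‖ ≤ C * (d : ℝ) ^ θ

/-- The optimal exponent. -/
noncomputable def thetaStar : ℝ := sInf {θ : ℝ | Admissible θ}

theorem strongly_one (m : ℕ) (hm : m ≠ 0) : StronglyKreissBounded (TT (fq m hm)) 1 := by
  constructor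
  · intro z hz
    by_contra h
    rw [not_le] at h
    exact (resolvent_facts (fq m hm) z h).1 hz
  · intro k hk z hz
    have h1 := (resolvent_facts (fq m hm) z hz).2
    refine (norm_pow_le' _ (by omega)).trans ?_
    calc ‖resolvent (TT (fq m hm)) z‖ ^ k ≤ (1 / (‖z‖ - 1)) ^ k :=
          pow_le_pow_left₀ (norm_nonneg _) h1 k
      _ = 1 / (‖z‖ - 1) ^ k := by rw [div_pow, one_pow]

theorem one_le_of_admissible (θ : ℝ) (h : Admissible θ) : 1 ≤ θ := by
  by_contra hθ
  rw [not_le] at hθ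
  obtain ⟨_, h⟩ := h
  obtain ⟨C, hC⟩ := h 1 le_rfl
  have h1 : ∀ m : ℕ, m ≠ 0 → (2 * (m : ℝ)) / (3 * Real.pi) ≤ C * (2 * (m : ℝ)) ^ θ := by
    intro m hm
    have h2 := hC (2 * m) (by omega) (ES (fq m hm)) (finrank_ES m hm) (TT (fq m hm))
      (strongly_one m hm) (m ^ 2) (Nat.pos_of_ne_zero (pow_ne_zero 2 hm))
    refine (lower_example m hm).trans (h2.trans (le_of_eq ?_))
    push_cast
    rfl
  have h3 : Tendsto (fun m : ℕ => (2 * (m : ℝ)) ^ (1 - θ)) atTop atTop := by
    have h4 : Tendsto (fun m : ℕ => 2 * (m : ℝ)) atTop atTop :=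
      tendsto_natCast_atTop_atTop.const_mul_atTop two_pos
    exact (tendsto_rpow_atTop (by linarith)).comp h4
  obtain ⟨m, hm1, hm2⟩ := ((h3.eventually_gt_atTop (3 * Real.pi * C)).and
    (eventually_gt_atTop 0)).exists
  have hm0 : m ≠ 0 := by omega
  have hmR : (0 : ℝ) < 2 * (m : ℝ) := by
    have : (0 : ℝ) < m := by exact_mod_cast hm2
    linarith
  have h5 := h1 m hm0
  have hpi := Real.pi_pos
  rw [div_le_iff₀ (by positivity)] at h5
  have h6 : (2 * (m : ℝ)) = (2 * (m : ℝ)) ^ (1 - θ) * (2 * (m : ℝ)) ^ θ := by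
    rw [← Real.rpow_add hmR]
    simp
  have h7 : 0 < (2 * (m : ℝ)) ^ θ := Real.rpow_pos_of_pos hmR _
  have h8 : (2 * (m : ℝ)) ^ (1 - θ) * (2 * (m : ℝ)) ^ θ ≤ (3 * Real.pi * C) * (2 * (m : ℝ)) ^ θ := by
    rw [← h6]
    linarith
  have h9 := le_of_mul_le_mul_right h8 h7
  linarith

theorem admissible_of_one_le (θ : ℝ) (h : 1 ≤ θ) : Admissible θ := by
  refine ⟨by linarith, fun M hM => ⟨2 * Real.exp 1 * M, ?_⟩⟩
  intro d hd X _ _ _ hdim T hT n hn
  have h1 := kreiss_linear T M (by linarith) hT.1 (by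
    intro z hz
    have := hT.2 1 le_rfl z hz
    rwa [pow_one, pow_one] at this) n hn
  rw [hdim] at h1
  refine h1.trans ?_
  have hdR : (1 : ℝ) ≤ d := by exact_mod_cast hd
  have h2 : (d : ℝ) ≤ (d : ℝ) ^ θ := by
    calc (d : ℝ) = (d : ℝ) ^ (1 : ℝ) := (Real.rpow_one _).symm
      _ ≤ (d : ℝ) ^ θ := Real.rpow_le_rpow_of_exponent_le hdR h
  apply mul_le_mul_of_nonneg_left h2
  have := Real.exp_pos 1
  positivity

/-- The admissible exponents are exactly those at least one; hence the optimal exponent is one. -/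
theorem result : (∀ θ : ℝ, Admissible θ ↔ 1 ≤ θ) ∧ thetaStar = 1 := by
  have h : ∀ θ : ℝ, Admissible θ ↔ 1 ≤ θ :=
    fun θ => ⟨one_le_of_admissible θ, admissible_of_one_le θ⟩
  refine ⟨h, ?_⟩
  have : {θ : ℝ | Admissible θ} = Set.Ici 1 := by
    ext θ
    exact h θ
  rw [thetaStar, this, csInf_Ici]

end Pool.Agent.Results.MP_389529_an.OptimalExponent
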